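import Pool.Agent.Lib.MP_6d445e_gt.H64.Fin

/-!
# CAS: the two cases
-/

universe u v w

open Cardinal Filter

namespace Pool.Agent.Lib.MP_6d445e_gt.H64

open Pool.Agent.Lib.MP_100a6c_lc
open Pool.Agent.Lib.MP_c5d73d_lc.F (pr)
open Pool.Agent.Lib.MP_e6fef2_lc

/-- Composition of measurable families. -/
theorem meas_comp {B : Type u} [CompleteBooleanAlgebra B] {G : Ult B → ℕ → ℕ} {g : Ult B → ℕ}
    (hG : ∀ n, Measurable fun h => G h n) (hg : Measurable g) :
    Measurable fun h => G h (g h) := by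
  refine measurable_of_fibers fun k => ?_
  have h1 : {h | G h (g h) = k} = ⋃ n : ℕ, ({h | g h = n} ∩ {h | G h n = k}) := by
    ext h
    simp
  rw [h1]
  exact MeasurableSet.iUnion fun n => (hg (measurableSet_singleton n)).inter
    (hG n (measurableSet_singleton k))

/-- Names of functions. -/
theorem name_of {B : Type u} [CompleteBooleanAlgebra B] (H : Ult B → ℕ → ℕ)
    (hH : ∀ n, Measurable fun h => H h n) :
    ∃ X : ℕ → ℕ → B, IsFN X ∧ ∀ᶠ h in ae B, ∀ n, fv X h n = H h n := by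
  obtain ⟨X, hX⟩ := exists_fname (F := fun n h => H h n)
    fun n k => hH n (measurableSet_singleton k)
  refine ⟨X, ?_, ?_⟩
  · unfold IsFN
    filter_upwards [hX] with g hg n
    exact ⟨H g n, (hg n _).2 rfl, fun k hk => ((hg n k).1 hk).symm⟩
  · filter_upwards [hX] with g hg n
    have h1 : {k | X n k ∈ g} = {H g n} := by
      ext k
      simp only [Set.mem_ofPred_eq, Set.mem_singleton_iff]
      rw [hg n k, eq_comm]
    unfold fv
    rw [h1]
    exact csInf_singleton _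

/-- The sequence `ν`. -/
def nu (ψ : ℕ → ℕ) : ℕ → ℕ
  | 0 => 0
  | n + 1 => max (nu ψ n + 1) (ψ (nu ψ n))

theorem nu_strictMono (ψ : ℕ → ℕ) : StrictMono (nu ψ) :=
  strictMono_nat_of_lt_succ fun _ => lt_of_lt_of_le (Nat.lt_succ_self _) (le_max_left _ _)

theorem meas_nu {B : Type u} [CompleteBooleanAlgebra B] {ψ : Ult B → ℕ → ℕ}
    (hψ : ∀ n, Measurable fun h => ψ h n) (n : ℕ) : Measurable fun h => nu (ψ h) n := by
  induction n with
  | zero => exact measurable_const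
  | succ n ih =>
    change Measurable fun h => max (nu (ψ h) n + 1) (ψ h (nu (ψ h) n))
    exact (ih.add measurable_const).max (meas_comp hψ ih)

/-- The function `Ψ`. -/
def psi (f : ℕ → ℕ) (p : ℕ) : ℕ :=
  ∑ i ∈ Finset.range (p.unpair.2 + 1), f (Nat.pair p.unpair.1 i)

theorem psi_le (f : ℕ → ℕ) (n i : ℕ) : f (Nat.pair n i) ≤ psi f (Nat.pair n i) := by
  unfold psi
  rw [Nat.unpair_pair]
  exact Finset.single_le_sum (f := fun i => f (Nat.pair n i)) (fun _ _ => Nat.zero_le _)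
    (Finset.mem_range.2 (Nat.lt_succ_self i))

theorem psi_mono (f : ℕ → ℕ) (n : ℕ) {i i' : ℕ} (h : i ≤ i') :
    psi f (Nat.pair n i) ≤ psi f (Nat.pair n i') := by
  unfold psi
  rw [Nat.unpair_pair, Nat.unpair_pair]
  exact Finset.sum_le_sum_of_subset (Finset.range_mono (Nat.succ_le_succ h))

theorem meas_psi {B : Type u} [CompleteBooleanAlgebra B] {f : Ult B → ℕ → ℕ}
    (hf : ∀ n, Measurable fun h => f h n) (p : ℕ) : Measurable fun h => psi (f h) p := by
  unfold psi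
  exact Finset.measurable_sum _ fun i _ => hf _

/-- The function `F₁`. -/
def fone (ν F' Ψ : ℕ → ℕ) (m : ℕ) : ℕ :=
  ∑ n ∈ Finset.range (m + 1), if ν n = m then F' (n + 1) + Ψ (Nat.pair m (F' (n + 1))) else 0

theorem le_fone (ν F' Ψ : ℕ → ℕ) (hν : StrictMono ν) (n : ℕ) :
    F' (n + 1) + Ψ (Nat.pair (ν n) (F' (n + 1))) ≤ fone ν F' Ψ (ν n) := by
  unfold fone
  have h1 : n ∈ Finset.range (ν n + 1) :=
    Finset.mem_range.2 (Nat.lt_succ_of_le hν.le_apply)
  have h2 := Finset.single_le_sum (f := fun n' => if ν n' = ν n then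
    F' (n' + 1) + Ψ (Nat.pair (ν n) (F' (n' + 1))) else 0) (fun _ _ => Nat.zero_le _) h1
  simpa using h2

theorem meas_fone {B : Type u} [CompleteBooleanAlgebra B] {ν F' Ψ : Ult B → ℕ → ℕ}
    (h1 : ∀ n, Measurable fun h => ν h n) (h2 : ∀ n, Measurable fun h => F' h n)
    (h3 : ∀ n, Measurable fun h => Ψ h n) (m : ℕ) :
    Measurable fun h => fone (ν h) (F' h) (Ψ h) m := by
  unfold fone
  refine Finset.measurable_sum _ fun n _ => ?_
  refine Measurable.ite ((h1 n) (measurableSet_singleton m)) ?_ measurable_const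
  refine (h2 _).add ?_
  exact meas_comp (G := fun h i => Ψ h (Nat.pair m i)) (g := fun h => F' h (n + 1))
    (fun i => h3 _) (h2 (n + 1))

theorem gdp_mono {B : Type u} [CompleteBooleanAlgebra B] {Λ : Type v} {Γ a : B} {D : GD B Λ}
    (hD : GDP Γ D) (ha : a ≤ Γ) : GDP a D where
  bf := hD.bf
  ef := hD.ef
  ii x := (hD.ii x).mono fun h hh h1 => hh (h.mono ha h1)
  iq x y := (hD.iq x y).mono fun h hh h1 => hh (h.mono ha h1)
  tot x := (hD.tot x).mono fun h hh h1 => hh (h.mono ha h1)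
  mono x := (hD.mono x).mono fun h hh h1 => hh (h.mono ha h1)
  g3a v x := (hD.g3a v x).mono fun h hh h1 => hh (h.mono ha h1)
  g3b v x := (hD.g3b v x).mono fun h hh h1 => hh (h.mono ha h1)
  g4 v x := (hD.g4 v x).mono fun h hh h1 => hh (h.mono ha h1)
  g5 v x := (hD.g5 v x).mono fun h hh h1 => hh (h.mono ha h1)
  mb ν h1 h2 := by
    obtain ⟨F, hF, h3⟩ := hD.mb ν h1 h2
    exact ⟨F, hF, fun x => (h3 x).mono fun h hh h1 => hh (h.mono ha h1)⟩
  fd F hF a' ha' h1 := hD.fd F hF a' ha' (h1.trans ha)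

theorem fv_mono {B : Type u} {R : ℕ → ℕ → B} [CompleteBooleanAlgebra B] {h : Ult B}
    (h1 : ∀ n, ∃ i, R n i ∈ h) (h2 : ∀ n i, R (n + 1) i ∈ h → R n i ∈ h) : Monotone (fv R h) := by
  refine monotone_nat_of_le_succ fun n => ?_
  refine Nat.sInf_le ?_
  have h3 : sInf {k | R (n + 1) k ∈ h} ∈ {k | R (n + 1) k ∈ h} := Nat.sInf_mem (h1 (n + 1))
  exact h2 n _ h3

theorem fv_congr {B : Type u} {R R' : ℕ → ℕ → B} [CompleteBooleanAlgebra B] {h : Ult B}
    (h1 : ∀ n i, R n i ∈ h ↔ R' n i ∈ h) : fv R h = fv R' h := by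
  funext n
  unfold fv
  congr 1
  ext k
  exact h1 n k

theorem cas : CasStatement.{u, v} := by
  classical
  intro B _ Λ Γ D hD hΓ
  by_cases hc : Cas1 Γ D
  · exact Or.inl hc
  right
  unfold Cas1 at hc
  push Not at hc
  obtain ⟨F, hF, a, ha, haΓ, hno⟩ := hc
  refine ⟨a, ha, haΓ, gdp_mono hD haΓ, ?_⟩
  -- the failure for all `x`
  have hfail : ∀ x, ∀ᶠ h in ae B, a ∈ h → ∃ m, ∀ n, m ≤ n → fv (D.rel x) h n ≤
      fv F h (Nat.pair n (fv (D.rel (D.inv x)) h (fv F h (Nat.pair n 0)))) := by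
    intro x
    -- the Boolean value
    have hm : MeasurableSet {h : Ult B | ∀ m, ∃ n, m ≤ n ∧
        fv F h (Nat.pair n (fv (D.rel (D.inv x)) h (fv F h (Nat.pair n 0)))) <
          fv (D.rel x) h n} := by
      have h0 : {h : Ult B | ∀ m, ∃ n, m ≤ n ∧
          fv F h (Nat.pair n (fv (D.rel (D.inv x)) h (fv F h (Nat.pair n 0)))) <
            fv (D.rel x) h n} = ⋂ m : ℕ, ⋃ n : ℕ, ({_h | m ≤ n} ∩
          {h | fv F h (Nat.pair n (fv (D.rel (D.inv x)) h (fv F h (Nat.pair n 0)))) <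
            fv (D.rel x) h n}) := by
        ext h
        simp
      rw [h0]
      refine MeasurableSet.iInter fun m => MeasurableSet.iUnion fun n =>
        (MeasurableSet.const _).inter ?_
      refine measurableSet_lt ?_ (meas_fv _ _)
      exact meas_comp (G := fun h i => fv F h (Nat.pair n i))
        (g := fun h => fv (D.rel (D.inv x)) h (fv F h (Nat.pair n 0))) (fun i => meas_fv F _)
        (meas_comp (G := fun h i => fv (D.rel (D.inv x)) h i)
          (g := fun h => fv F h (Nat.pair n 0)) (meas_fv _) (meas_fv F _))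
    obtain ⟨y, hy⟩ := hm
    have hay : a ⊓ y = ⊥ := by
      by_contra hne
      refine hno (a ⊓ y) hne inf_le_left x ?_
      filter_upwards [hy] with h h1 h2
      obtain ⟨m, hm⟩ := h2.2
      obtain ⟨n, hn, hlt⟩ := h1.1 (h.mem_inf.1 h2.1).2 m
      exact absurd (hm n hn) (not_le.2 hlt)
    filter_upwards [hy] with h h1 h2
    have h3 : y ∉ h := fun h3 => h.not_bot (hay ▸ h.mem_inf.2 ⟨h2, h3⟩)
    have h4 : ¬ h ∈ {h : Ult B | ∀ m, ∃ n, m ≤ n ∧
        fv F h (Nat.pair n (fv (D.rel (D.inv x)) h (fv F h (Nat.pair n 0)))) <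
          fv (D.rel x) h n} := fun h4 => h3 (h1.2 h4)
    rw [Set.mem_ofPred_eq] at h4
    push Not at h4
    exact h4
  -- the functions
  let ψ : Ult B → ℕ → ℕ := fun h n => fv F h (Nat.pair n 0)
  have hψm : ∀ n, Measurable fun h => ψ h n := fun n => meas_fv F _
  obtain ⟨Ψn, hΨ, hΨv⟩ := name_of (fun h => psi (fv F h)) fun n => meas_psi (meas_fv F) n
  obtain ⟨ψn, hψ, hψv⟩ := name_of ψ hψm
  obtain ⟨νn, hν, hνv⟩ := name_of (fun h => nu (ψ h)) fun n => meas_nu hψm n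
  obtain ⟨Fn', hF', hmb⟩ := hD.mb νn hν (by
    filter_upwards [hνv] with h h1
    have : fv νn h = nu (ψ h) := funext h1
    rw [this]
    exact nu_strictMono _)
  obtain ⟨Fn, hFn, hFv⟩ := name_of (fun h => fone (nu (ψ h)) (fv Fn' h) (psi (fv F h)))
    fun m => meas_fone (fun n => meas_nu hψm n) (meas_fv Fn') (fun n => meas_psi (meas_fv F) n) m
  -- the second property
  have h2 : ∀ x, ∀ᶠ h in ae B, a ∈ h → ∃ m, ∀ n, m ≤ n →
      fv (D.rel x) h n ≤ fv Ψn h (Nat.pair n (fv (D.rel (D.inv x)) h (fv ψn h n))) := by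
    intro x
    filter_upwards [hfail x, hΨv, hψv] with h h1 h3 h4 h5
    obtain ⟨m, hm⟩ := h1 h5
    refine ⟨m, fun n hn => ?_⟩
    rw [h3, h4]
    exact (hm n hn).trans (psi_le _ _ _)
  refine ⟨Ψn, ψn, Fn, hΨ, hψ, hFn, ?_, h2, ?_⟩
  · filter_upwards [hΨv] with h h1 n i i' hi
    rw [h1, h1]
    exact psi_mono _ _ hi
  · intro x
    filter_upwards [h2 (D.inv x), hD.ii x, hD.tot x, hD.mono x, hmb x, hΨv, hψv, hνv, hFv]
      with h g1 g2 g3 g4 g5 g6 g7 g8 g9 hah m
    have hΓh : Γ ∈ h := h.mono haΓ hah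
    obtain ⟨m1, hm1⟩ := g1 hah
    have hmono : Monotone (fv (D.rel x) h) := fv_mono (g3 hΓh) (g4 hΓh)
    have hinv : fv (D.rel (D.inv (D.inv x))) h = fv (D.rel x) h := fv_congr (g2 hΓh)
    obtain ⟨n, hn, hle⟩ := g5 hΓh (max m m1 + 1)
    obtain ⟨n', rfl⟩ : ∃ n', n = n' + 1 := ⟨n - 1, by omega⟩
    have hn' : max m m1 ≤ n' := by omega
    rw [g8] at hle
    have hν' : StrictMono (nu (ψ h)) := nu_strictMono _
    have e1 : max m m1 ≤ nu (ψ h) n' := hn'.trans hν'.le_apply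
    refine ⟨nu (ψ h) n', (le_max_left _ _).trans e1, ?_, ?_⟩
    · rw [g9]
      refine le_trans ?_ (le_fone _ _ _ hν' n')
      refine le_trans ?_ (Nat.le_add_right _ _)
      exact (hmono (hν' (Nat.lt_succ_self n')).le).trans hle
    · rw [g9]
      refine le_trans ?_ (le_fone _ _ _ hν' n')
      refine le_trans ?_ (Nat.le_add_left _ _)
      refine (hm1 _ ((le_max_right _ _).trans e1)).trans ?_
      rw [g6, g7, hinv]
      refine psi_mono _ _ ?_
      refine le_trans (hmono ?_) hle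
      exact le_max_right _ _

end Pool.Agent.Lib.MP_6d445e_gt.H64
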