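import Pool.Agent.Lib.MP_6d445e_gt.Iface2

/-!
# FIN: one element of the group which is large on a set in the generic ultrafilter
-/

universe u v w

open Cardinal Filter

namespace Pool.Agent.Lib.MP_6d445e_gt.H64

open Pool.Agent.Lib.MP_100a6c_lc
open Pool.Agent.Lib.MP_c5d73d_lc.F (pr)
open Pool.Agent.Lib.MP_e6fef2_lc

section pos

variable {B : Type u} [CompleteBooleanAlgebra B] {ι : H1.RO Sw.{u} → B}

theorem pr_inf_le (S T : Sw.{u}) :
    pr S ⊓ pr T ≤ ⨆ C ∈ {C : Sw.{u} | C ≤ S ∧ C ≤ T}, pr C := by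
  obtain ⟨-, h2, h3, -, -, h6, -⟩ := all_roapi.{u} Sw.{u}
  rw [h3 (pr S ⊓ pr T)]
  refine iSup_le fun p => ?_
  rw [h2 p.1 {C : Sw.{u} | C ≤ S ∧ C ≤ T}]
  intro p' hp'
  have hS : pr p.1 ≤ pr S := p.2.trans inf_le_left
  have hT : pr p.1 ≤ pr T := p.2.trans inf_le_right
  have hS1 := (h2 p.1 {S}).1 (by simpa using hS)
  have hT1 := (h2 p.1 {T}).1 (by simpa using hT)
  obtain ⟨p1, h1, C, hC, h1C⟩ := hS1 p' hp'
  obtain ⟨p2, h2', C', hC', h2C⟩ := hT1 p1 (h1.trans hp')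
  rw [Set.mem_singleton_iff] at hC hC'
  subst hC hC'
  exact ⟨p2, h2'.trans h1, p2, ⟨h2'.trans h1C, h2C⟩, le_rfl⟩

theorem le_iota_pr (hι : IsCE ι) (S T : Sw.{u}) :
    ι (pr S) ⊓ ι (pr T) ≤ ⨆ C : {C : Sw.{u} // C ≤ S ∧ C ≤ T}, ι (pr C.1) := by
  have h := all_alg _ _ ι hι
  rw [← h.2.2.1]
  have h1 := (h.2.2.2.2.1 _ _).2 (pr_inf_le S T)
  refine h1.trans ?_
  rw [iSup_subtype', h.2.2.2.2.2.1]
  exact le_rfl

/-- `pos` is closed under intersections. -/
theorem pos_inf (hι : IsCE ι) (x y : ℕ → B) :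
    pos ι x ⊓ pos ι y ≤ pos ι (fun n => x n ⊓ y n) := by
  unfold pos
  rw [iSup_inf_iSup]
  refine iSup_le fun p => ?_
  obtain ⟨S, T⟩ := p
  have h1 : ι (pr S) ⊓ (⨅ n ∈ S.S, x n) ⊓ (ι (pr T) ⊓ ⨅ n ∈ T.S, y n) ≤
      (⨆ C : {C : Sw.{u} // C ≤ S ∧ C ≤ T}, ι (pr C.1)) ⊓
        ((⨅ n ∈ S.S, x n) ⊓ ⨅ n ∈ T.S, y n) := by
    refine le_inf ?_ (le_inf ?_ ?_)
    · exact (le_inf (inf_le_left.trans inf_le_left) (inf_le_right.trans inf_le_left)).trans
        (le_iota_pr hι S T)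
    · exact inf_le_left.trans inf_le_right
    · exact inf_le_right.trans inf_le_right
  refine h1.trans ?_
  rw [iSup_inf_eq]
  refine iSup_le fun C => ?_
  obtain ⟨C, hCS, hCT⟩ := C
  -- the intersection of the three sets
  have hinf : (C.S ∩ S.S ∩ T.S).Infinite := by
    intro hfin
    refine C.infinite (((hfin.union hCS).union hCT).subset ?_)
    intro n hn
    by_cases h1 : n ∈ S.S
    · by_cases h2 : n ∈ T.S
      · exact Or.inl (Or.inl ⟨⟨hn, h1⟩, h2⟩)
      · exact Or.inr ⟨hn, h2⟩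
    · exact Or.inl (Or.inr ⟨hn, h1⟩)
  let D : Sw.{u} := ⟨⟨C.S ∩ S.S ∩ T.S⟩, hinf⟩
  have hDS : D.S = C.S ∩ S.S ∩ T.S := rfl
  have hle : C ≤ D := by
    rw [Sw.le_def, hDS]
    refine (hCS.union hCT).subset ?_
    rintro n ⟨hn, h1⟩
    by_cases h2 : n ∈ S.S
    · by_cases h3 : n ∈ T.S
      · exact absurd ⟨⟨hn, h2⟩, h3⟩ h1
      · exact Or.inr ⟨hn, h3⟩
    · exact Or.inl ⟨hn, h2⟩
  obtain ⟨-, -, -, -, -, h6, -⟩ := all_roapi.{u} Sw.{u}
  have h := all_alg _ _ ι hι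
  refine le_trans ?_ (le_iSup _ D)
  refine le_inf ?_ ?_
  · exact inf_le_left.trans ((h.2.2.2.2.1 _ _).2 (h6 _ _ hle))
  · refine le_iInf fun n => le_iInf fun hn => ?_
    rw [hDS] at hn
    exact inf_le_right.trans (inf_le_inf (iInf₂_le n hn.1.2) (iInf₂_le n hn.2))

theorem pos_mono {x y : ℕ → B} (h : ∀ n, x n ≤ y n) : pos ι x ≤ pos ι y := by
  unfold pos
  exact iSup_mono fun S => inf_le_inf_left _ (iInf_mono fun n => iInf_mono fun _ => h n)

theorem pos_bot : pos ι (fun _ => (⊥ : B)) = ⊥ := by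
  unfold pos
  rw [eq_bot_iff]
  refine iSup_le fun S => ?_
  obtain ⟨n, hn⟩ := S.infinite.nonempty
  exact inf_le_right.trans (iInf₂_le n hn)

theorem pos_top (hp : PP ι) : pos ι (fun _ => (⊤ : B)) = ⊤ := by
  have h := hp (fun _ => (⊤ : B))
  have h1 : pos ι (cpl (fun _ => (⊤ : B))) = ⊥ := by
    have : cpl (fun _ => (⊤ : B)) = fun _ => ⊥ := by
      funext n
      simp [cpl]
    rw [this, pos_bot]
  rw [h1, sup_bot_eq] at h
  exact h

theorem pos_finset (hι : IsCE ι) (hp : PP ι) {Λ : Type v} (E : Finset Λ) (y : Λ → ℕ → B) (b : B)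
    (hb : ∀ x ∈ E, b ≤ pos ι (y x)) : b ≤ pos ι (fun n => ⨅ x ∈ E, y x n) := by
  classical
  induction E using Finset.induction_on with
  | empty =>
    have : (fun n : ℕ => ⨅ x ∈ (∅ : Finset Λ), y x n) = fun _ => ⊤ := by
      funext n
      simp
    rw [this, pos_top hp]
    exact le_top
  | insert x E hx ih =>
    have h1 := ih fun x hx => hb x (Finset.mem_insert_of_mem hx)
    have h2 := hb x (Finset.mem_insert_self _ _)
    refine (le_inf h2 h1).trans ((pos_inf hι _ _).trans (pos_mono fun n => ?_))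
    rw [Finset.iInf_insert]

end pos

/-- The Boolean value of `fv F h n ≤ fv R h n`. -/
theorem meas_fv {B : Type u} [CompleteBooleanAlgebra B] (R : ℕ → ℕ → B) (n : ℕ) :
    Measurable fun h : Ult B => fv R h n := by
  refine measurable_of_fibers fun k => ?_
  have h1 : {h : Ult B | fv R h n = k} =
      ({h | R n k ∈ h} ∩ ⋂ j : Fin k, {h | R n j ∈ h}ᶜ) ∪
        ({_h | k = 0} ∩ ⋂ j : ℕ, {h | R n j ∈ h}ᶜ) := by
    ext h
    simp only [fv, Set.mem_ofPred_eq, Set.mem_union, Set.mem_inter_iff, Set.mem_iInter,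
      Set.mem_compl_iff]
    by_cases hne : {j | R n j ∈ h}.Nonempty
    · constructor
      · intro hk
        left
        subst hk
        refine ⟨Nat.sInf_mem hne, fun j => ?_⟩
        exact Nat.notMem_of_lt_sInf j.2
      · rintro (⟨h1, h2⟩ | ⟨-, h2⟩)
        · refine le_antisymm (Nat.sInf_le h1) ?_
          by_contra hlt
          push Not at hlt
          exact h2 ⟨_, hlt⟩ (Nat.sInf_mem hne)
        · obtain ⟨j, hj⟩ := hne
          exact absurd hj (h2 j)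
    · have he : {j | R n j ∈ h} = ∅ := Set.not_nonempty_iff_eq_empty.1 hne
      have h0 : sInf {j | R n j ∈ h} = 0 := by rw [he]; simp
      rw [h0]
      constructor
      · intro hk
        right
        refine ⟨hk.symm, fun j hj => ?_⟩
        have : j ∈ {j | R n j ∈ h} := hj
        rw [he] at this
        exact this
      · rintro (⟨h1, -⟩ | ⟨h1, -⟩)
        · have : k ∈ {j | R n j ∈ h} := h1
          rw [he] at this
          exact absurd this (Set.notMem_empty _)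
        · exact h1.symm
  rw [h1]
  refine MeasurableSet.union ?_ ?_
  · exact (measurable_mem _ _).inter (MeasurableSet.iInter fun j => (measurable_mem _ _).compl)
  · exact (MeasurableSet.const _).inter (MeasurableSet.iInter fun j => (measurable_mem _ _).compl)

theorem fin : FinStatement.{u, v} := by
  classical
  intro B _ ι hι hp Λ Γ D hD F hF a ha haΓ
  obtain ⟨b, hb, hba, E, hE⟩ := hD.fd F hF a ha haΓ
  -- the names
  have hex : ∀ x : Λ, ∃ y : ℕ → B, ∀ᶠ h in ae B, ∀ n, y n ∈ h ↔ fv F h n ≤ fv (D.rel x) h n := by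
    intro x
    refine exists_name (F := fun n h => fv F h n ≤ fv (D.rel x) h n) fun n => ?_
    exact measurableSet_le (meas_fv F n) (meas_fv (D.rel x) n)
  choose y hy using hex
  -- some `pos` meets `b`
  have key : ∃ x ∈ E, b ⊓ pos ι (y x) ≠ ⊥ := by
    by_contra hcon
    push Not at hcon
    have h1 : ∀ x ∈ E, b ≤ pos ι (cpl (y x)) := by
      intro x hx
      have h2 : b ⊓ (pos ι (y x) ⊔ pos ι (cpl (y x))) = b := by rw [hp (y x), inf_top_eq]
      rw [inf_sup_left, hcon x hx, bot_sup_eq] at h2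
      rw [← h2]
      exact inf_le_right
    have h2 := pos_finset hι hp E (fun x => cpl (y x)) b h1
    have h3 : ∀ n, b ⊓ ⨅ x ∈ E, cpl (y x) n = ⊥ := by
      intro n
      rw [eq_bot_iff]
      refine le_of_ae ?_
      have hyE : ∀ᶠ h in ae B, ∀ x : E, ∀ n, y x.1 n ∈ h ↔ fv F h n ≤ fv (D.rel x.1) h n :=
        ae_all fun x => hy x.1
      filter_upwards [hE, hyE] with h h4 h5 h6
      rw [h.mem_inf, h.mem_finset_iInf] at h6
      obtain ⟨x, hx, hle⟩ := h4 h6.1 n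
      have h7 := h6.2 x hx
      have h8 : y x n ∉ h := h.mem_compl.1 h7
      exact absurd ((h5 ⟨x, hx⟩ n).2 hle) h8
    apply hb
    rw [eq_bot_iff]
    have h4 : b ≤ b ⊓ pos ι (fun n => ⨅ x ∈ E, cpl (y x) n) := le_inf le_rfl h2
    refine h4.trans ?_
    unfold pos
    rw [inf_iSup_eq]
    refine iSup_le fun S => ?_
    obtain ⟨n, hn⟩ := S.infinite.nonempty
    rw [← h3 n]
    exact le_inf inf_le_left (inf_le_right.trans (inf_le_right.trans (iInf₂_le n hn)))
  obtain ⟨x, hxE, hx⟩ := key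
  have h1 : ∃ s : Sw.{u}, b ⊓ (ι (pr s) ⊓ ⨅ n ∈ s.S, y x n) ≠ ⊥ := by
    by_contra hcon
    push Not at hcon
    apply hx
    unfold pos
    rw [inf_iSup_eq, iSup_eq_bot]
    exact hcon
  obtain ⟨s, hs⟩ := h1
  refine ⟨_, hs, inf_le_left.trans hba, x, s, ?_⟩
  filter_upwards [hy x] with h h2 h3 n hn
  rw [← h2 n]
  exact h.mono (inf_le_right.trans (inf_le_right.trans (iInf₂_le n hn))) h3

end Pool.Agent.Lib.MP_6d445e_gt.H64
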